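import Pool.Agent.CYL.D.Cov.Main
import Pool.Agent.Hhelper64.T12.Up
import Pool.Agent.Hhelper64.T12.Ana

/-!
CYL on the lattice `(3,12^2)`: crossing paths as lists of darts (forward order), the code of a crossing path by a crossing
path of the honeycomb lattice and a list of decorations. Definitions.
-/

namespace Pool.Agent.CYL.T

open Pool.Agent.Hhelper14.SAW Pool.Agent.HHP Pool.Agent.QL Pool.Agent.BEX Pool.Agent.Hhelper64.T12 Pool.Agent.CYL
open scoped ENNReal

variable {L : ℕ}

/-- A dart modulo the period: its vertex modulo the period and its direction. -/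
def pd (N : ℕ) (i : Fin L) (d : Dt) : CV L × (ℤ × ℤ) := (DC.pf N i d.1, d.2 - d.1)

/-- Crossing paths as lists of darts (first vertex first). The last dart points to the column `N`. -/
def ID (N : ℕ) (i : Fin L) : Set (List Dt) :=
  {P | P.head? = some d0 ∧ (∀ d ∈ P, IsD d ∧ 0 ≤ F0 d.1 ∧ F0 d.1 ≤ 3 * N - 2) ∧ P.IsChain LR ∧
    (P.map (pd N i)).Nodup ∧ ∀ d ∈ P.getLast?, F0 d.2 = 3 * N}

/-- Pairs of lists of darts. -/
def ID2 (N : ℕ) (i : Fin L) : Set (List Dt × List Dt) :=
  {q | q.1 ∈ ID N i ∧ q.2 ∈ ID N i ∧ ∀ d ∈ q.1.tail, ∀ d' ∈ q.2, pd N i d ≠ pd N i d'}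

/-- The critical weight of one vertex of the lattice `(3,12^2)`. -/
noncomputable def xT : ℝ≥0∞ := ENNReal.ofReal xx

end Pool.Agent.CYL.T
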