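import Pool.Agent.CYL.T.Enc

/-!
CYL on the lattice `(3,12^2)`: every crossing path is a code; equivalences and sums.
-/

namespace Pool.Agent.CYL.T

open Pool.Agent.Hhelper14.SAW Pool.Agent.HHP Pool.Agent.QL Pool.Agent.BEX Pool.Agent.Hhelper64.T12 Pool.Agent.CYL
open scoped ENNReal

variable {L : ℕ}

lemma step_of {N : ℕ} {v b : ℤ × ℤ} (h : Adj v b) (h1 : F0 v ≤ 3 * N - 2) (h2 : F0 b = 3 * N) :
    F0 v = 3 * N - 2 ∧ b = v + (1, 0) := by
  obtain ⟨x, y⟩ := v
  obtain ⟨x', y'⟩ := b
  simp only [Adj, Pool.Agent.Hhelper14.SAW.hon, U, F0, Prod.mk_add_mk, Prod.mk_sub_mk, Prod.mk.injEq] at *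
  omega

lemma third_comm (v a b : ℤ × ℤ) : third v a b = third v b a := by
  simp only [third, Prod.mk.injEq]
  omega

/-- DECODING. -/
lemma dec_ex {N : ℕ} : ∀ (n : ℕ) (P : List Dt), P.length ≤ n → ∀ v a : ℤ × ℤ, ((v, a) :: P).IsChain LR →
    ((v, a) :: P).Nodup → (∀ d ∈ (v, a) :: P, IsD d ∧ 0 ≤ F0 d.1 ∧ F0 d.1 ≤ 3 * N - 2) →
    (∀ d ∈ ((v, a) :: P).getLast?, F0 d.2 = 3 * N) → F0 a ≤ 3 * N - 2 → (a, v) ∉ P →
    ∃ r cs, cs.length = r.length + 1 ∧ (v, a) :: P = enc a (v :: r) cs ∧ (v :: r).IsChain Adj ∧
      (∀ z ∈ (v :: r).getLast?, F0 z = 3 * N - 2) ∧ r.headD (v + (1, 0)) ≠ a := by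
  intro n
  induction n with
  | zero =>
    intro P hP v a h1 h2 h3 h4 h5 h6
    obtain rfl : P = [] := List.length_eq_zero_iff.1 (by omega)
    have := h4 (v, a) (by simp)
    simp only at this
    omega
  | succ n ih =>
    intro P hP v a h1 h2 h3 h4 h5 h6
    have hva : Adj v a := (h3 (v, a) (by simp)).1
    have hv : F0 v ≤ 3 * N - 2 := (h3 (v, a) (by simp)).2.2
    match P, hP, h1, h2, h3, h4, h6 with
    | [], _, _, _, _, h4, _ =>
      have := h4 (v, a) (by simp)
      simp only at this
      omega
    | (v1, b) :: P, hP, h1, h2, h3, h4, h6 =>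
      obtain ⟨k1, k2⟩ := List.isChain_cons_cons.1 h1
      have hb0 : Adj v1 b := (h3 (v1, b) (by simp)).1
      -- the first step stays in the triangle
      have hstep : v1 = v ∧ b ≠ a := by
        rcases k1.2.2 with ⟨e1, e2⟩ | ⟨e1, e2⟩
        · exfalso
          simp only at e1 e2
          subst e1 e2
          simp at h6
        · simp only at e1 e2
          exact ⟨e1.symm, fun h => e2 h.symm⟩
      obtain ⟨rfl, hba⟩ := hstep
      match P, hP, h1, h2, h3, h4, h6, k2 with
      | [], _, _, _, _, h4, _, _ =>
        have h7 : F0 b = 3 * N := h4 (v1, b) (by simp)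
        obtain ⟨e1, e2⟩ := step_of hb0 hv h7
        refine ⟨[], [false], rfl, ?_, by simp, ?_, ?_⟩
        · rw [enc_cons, enc_nil]
          simp [tri, e2]
        · intro z hz
          simp only [List.getLast?_singleton, Option.mem_def, Option.some.injEq] at hz
          rw [← hz]; exact e1
        · simp only [List.headD_nil]
          rw [← e2]; exact hba
      | (v2, b') :: P, hP, h1, h2, h3, h4, h6, k2 =>
        obtain ⟨k3, k4⟩ := List.isChain_cons_cons.1 k2
        have hb2 : Adj v2 b' := (h3 (v2, b') (by simp)).1
        rcases k3.2.2 with ⟨e1, e2⟩ | ⟨e1, e2⟩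
        · -- crossing to the next triangle
          simp only at e1 e2
          subst e1 e2
          obtain ⟨r, cs, g1, g2, g3, g4, g5⟩ := ih P (by simp at hP; omega) b v1 k4
            (List.nodup_cons.1 (List.nodup_cons.1 h2).2).2
            (fun d hd => h3 d (List.mem_cons_of_mem _ (List.mem_cons_of_mem _ hd)))
            (fun d hd => h4 d (by rw [List.getLast?_cons_cons, List.getLast?_cons_cons]; exact hd)) hv
            (fun h => (List.nodup_cons.1 (List.nodup_cons.1 h2).2).1 (List.mem_cons_of_mem _ h))
          refine ⟨b :: r, false :: cs, by simp [g1], ?_, ?_, ?_, ?_⟩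
          · rw [enc_cons, g2]
            simp [tri]
          · rw [List.isChain_cons_cons]; exact ⟨hb0, g3⟩
          · intro z hz
            rw [List.getLast?_cons_cons] at hz
            exact g4 z hz
          · simpa using hba
        · -- the third vertex of the triangle
          simp only at e1 e2
          subst e1
          have hnd := List.nodup_cons.1 h2
          have hb'a : b' ≠ a := by
            rintro rfl
            exact hnd.1 (by simp)
          have hthird : b = third v1 a b' := third_unique hva hb2 hb0 hb'a hba e2
          match P, hP, h1, h2, h3, h4, h6, k4 with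
          | [], _, _, _, _, h4, _, _ =>
            have h7 : F0 b' = 3 * N := h4 (v1, b') (by simp)
            obtain ⟨e3, e4⟩ := step_of hb2 hv h7
            refine ⟨[], [true], rfl, ?_, by simp, ?_, ?_⟩
            · rw [enc_cons, enc_nil]
              simp [tri, ← e4, ← hthird]
            · intro z hz
              simp only [List.getLast?_singleton, Option.mem_def, Option.some.injEq] at hz
              rw [← hz]; exact e3
            · simp only [List.headD_nil]
              rw [← e4]; exact hb'a
          | (v3, b'') :: P, hP, h1, h2, h3, h4, h6, k4 =>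
            obtain ⟨k5, k6⟩ := List.isChain_cons_cons.1 k4
            have hb3 : Adj v3 b'' := (h3 (v3, b'') (by simp)).1
            rcases k5.2.2 with ⟨e3, e4⟩ | ⟨e3, e4⟩
            · simp only at e3 e4
              subst e3 e4
              have hnd2 := List.nodup_cons.1 (List.nodup_cons.1 hnd.2).2
              obtain ⟨r, cs, g1, g2, g3, g4, g5⟩ := ih P (by simp at hP; omega) b' v1 k6 hnd2.2
                (fun d hd => h3 d (List.mem_cons_of_mem _ (List.mem_cons_of_mem _ (List.mem_cons_of_mem _ hd))))
                (fun d hd => h4 d (by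
                  rw [List.getLast?_cons_cons, List.getLast?_cons_cons, List.getLast?_cons_cons]; exact hd)) hv
                (fun h => hnd2.1 (List.mem_cons_of_mem _ h))
              refine ⟨b' :: r, true :: cs, by simp [g1], ?_, ?_, ?_, ?_⟩
              · rw [enc_cons, g2]
                simp [tri, ← hthird]
              · rw [List.isChain_cons_cons]; exact ⟨hb2, g3⟩
              · intro z hz
                rw [List.getLast?_cons_cons] at hz
                exact g4 z hz
              · simpa using hb'a
            · -- a fourth vertex of the triangle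
              exfalso
              simp only at e3 e4
              subst e3
              have hb''b : b'' ≠ b := by
                rintro rfl
                exact (List.nodup_cons.1 hnd.2).1 (by simp)
              have hb''a : b'' ≠ a := by
                rintro rfl
                exact hnd.1 (by simp)
              have h8 := third_unique hva hb2 hb3 hb'a hb''a (fun h => e4 h.symm)
              exact hb''b (h8.trans hthird.symm)

/-! ### codes and crossing paths -/

lemma nodup_of_map {α β : Type*} {f : α → β} {l : List α} (h : (l.map f).Nodup) : l.Nodup := List.Nodup.of_map f h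

lemma adj_o_o' : Adj o o' := adj_o

/-- A honeycomb crossing path satisfies the conditions. -/
lemma ok_of {N : ℕ} (hN : 1 ≤ N) {i : Fin L} {R : List (ℤ × ℤ)} (h : R ∈ DC.IP N i) :
    ∃ b r, R = o :: b :: r ∧ Ok N o' o (b :: r) := by
  obtain ⟨h1, h2, h3, h4, h5⟩ := h
  match R, h1, h2, h3, h4, h5 with
  | [v], h1, _, _, _, h5 =>
    exfalso
    simp only [List.head?_cons, Option.some.injEq] at h1
    have := h5 v (by simp)
    rw [h1] at this
    simp only [F0] at this
    omega
  | v :: b :: r, h1, h2, h3, h4, h5 =>
    simp only [List.head?_cons, Option.some.injEq] at h1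
    subst h1
    refine ⟨b, r, rfl, adj_o_o', h3, nodup_of_map h4, fun z hz => ⟨(h2 z hz).2.1, (h2 z hz).2.2⟩, h5, ?_⟩
    simp only [List.headD_cons]
    rintro rfl
    have := (h2 o' (by simp)).2.1
    simp only [F0, o'] at this
    omega

lemma enc_mem {N : ℕ} (hN : 1 ≤ N) {i : Fin L} {R : List (ℤ × ℤ)} (h : R ∈ DC.IP N i) {cs : List Bool}
    (hc : cs.length = R.length) : enc o' R cs ∈ ID N i := by
  obtain ⟨b, r, rfl, hok⟩ := ok_of hN h
  obtain ⟨e1, e2, e3⟩ := enc_props (b :: r) o' o cs (by simpa using hc) hok
  refine ⟨?_, fun d hd => ?_, e1, enc_nodup (b :: r) o' o cs (by simpa using hc) hok h.2.2.2.1, e3⟩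
  · cases cs with
    | nil => simp at hc
    | cons c cs => rw [enc_head]; rfl
  · obtain ⟨g1, g2⟩ := hok.dom d.1 (enc_mem_fst _ _ _ hd)
    exact ⟨e2 d hd, g1, g2⟩

lemma enc_surj {N : ℕ} (hN : 1 ≤ N) {i : Fin L} {P : List Dt} (h : P ∈ ID N i) :
    ∃ R ∈ DC.IP N i, ∃ cs : List Bool, cs.length = R.length ∧ enc o' R cs = P := by
  obtain ⟨h1, h2, h3, h4, h5⟩ := h
  match P, h1, h2, h3, h4, h5 with
  | d :: P, h1, h2, h3, h4, h5 =>
    simp only [List.head?_cons, Option.some.injEq] at h1
    subst h1
    have hnd := nodup_of_map h4
    obtain ⟨r, cs, g1, g2, g3, g4, g5⟩ := dec_ex (N := N) P.length P le_rfl o o' h3 hnd h2 h5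
      (by simp only [F0, o']; omega) (by
        intro hm
        have := (h2 (o', o) (List.mem_cons_of_mem _ hm)).2.1
        simp only [F0, o'] at this
        omega)
    have hfst : ∀ z ∈ o :: r, ∃ d ∈ d0 :: P, d.1 = z := by
      intro z hz
      have hmap : ((enc o' (o :: r) cs).map Prod.fst).dedup = (((d0 :: P)).map Prod.fst).dedup := by
        rw [← g2]; rfl
      by_contra hcon
      push Not at hcon
      -- every vertex of the path carries a dart
      have key : ∀ (r : List (ℤ × ℤ)) (a : ℤ × ℤ) (cs : List Bool), cs.length = r.length → ∀ z ∈ r,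
          ∃ d ∈ enc a r cs, d.1 = z := by
        intro r
        induction r with
        | nil => intro a cs _ z hz; simp at hz
        | cons v r ih =>
          intro a cs hc z hz
          cases cs with
          | nil => simp at hc
          | cons c cs =>
            rw [enc_cons]
            rcases List.mem_cons.1 hz with rfl | hz
            · exact ⟨(z, a), List.mem_append_left _ (tri_mem_left _ _ _ _), rfl⟩
            · obtain ⟨d, hd, hd'⟩ := ih v cs (by simpa using hc) z hz
              exact ⟨d, List.mem_append_right _ hd, hd'⟩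
      obtain ⟨d, hd, hd'⟩ := key (o :: r) o' cs (by simpa using g1) z hz
      rw [← g2] at hd
      exact hcon d hd hd'
    have hdom : ∀ z ∈ o :: r, hon z ∧ 0 ≤ F0 z ∧ F0 z ≤ 3 * N - 2 := by
      intro z hz
      obtain ⟨d, hd, rfl⟩ := hfst z hz
      exact ⟨(h2 d hd).1.1, (h2 d hd).2.1, (h2 d hd).2.2⟩
    -- no vertex twice, in the plane
    have hndr : (o :: r).Nodup := by
      have key : ∀ (r : List (ℤ × ℤ)) (a v : ℤ × ℤ) (cs : List Bool), cs.length = r.length + 1 →
          (v :: r).IsChain Adj → Adj v a → r.headD (v + (1, 0)) ≠ a →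
          (∀ z ∈ (v :: r).getLast?, F0 z = 3 * N - 2) → (∀ z ∈ v :: r, 0 ≤ F0 z ∧ F0 z ≤ 3 * N - 2) →
          (∀ z ∈ r, ∀ r', r' <:+ r → True) → (enc a (v :: r) cs).Nodup → (v :: r).Nodup ∧
            ∀ u ∈ v :: r, ∃ x y : ℤ × ℤ, x ≠ y ∧ Adj u x ∧ Adj u y ∧ (u, x) ∈ enc a (v :: r) cs ∧
              (u, y) ∈ enc a (v :: r) cs := by
        intro r
        induction r with
        | nil =>
          intro a v cs hc hch hva hne hl hd _ hn
          refine ⟨by simp, fun u hu => ?_⟩
          obtain ⟨c, rfl⟩ : ∃ c, cs = [c] := List.length_eq_one_iff.1 (by simpa using hc)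
          obtain rfl : u = v := by simpa using hu
          rw [enc_cons]
          exact ⟨a, _, hne.symm, hva, right_adj hva.1 (hl u (by simp)), List.mem_append_left _ (tri_mem_left _ _ _ _),
            List.mem_append_left _ (tri_mem_right _ _ _ _)⟩
        | cons b r ih =>
          intro a v cs hc hch hva hne hl hd _ hn
          cases cs with
          | nil => simp at hc
          | cons c cs =>
            obtain ⟨k1, k2⟩ := List.isChain_cons_cons.1 hch
            rw [enc_cons, List.nodup_append] at hn
            obtain ⟨n1, n2, n3⟩ := hn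
            simp only [List.headD_cons] at n1 n2 n3 hne
            have hne' : r.headD (b + (1, 0)) ≠ v := by
              cases r with
              | nil =>
                intro h5
                simp only [List.headD_nil] at h5
                have h6 : F0 b = 3 * N - 2 := hl b (by simp)
                have h7 := (hd v (by simp)).2
                rw [← h5, F0_right] at h7
                omega
              | cons b' r =>
                simp only [List.headD_cons]
                rintro rfl
                -- the dart (b', b) would occur twice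
                cases cs with
                | nil => simp at hc
                | cons c' cs =>
                  cases cs with
                  | nil => simp at hc
                  | cons c'' cs =>
                    refine n3 (b', b) (tri_mem_right _ _ _ _) (b', b) ?_ rfl
                    rw [enc_cons, enc_cons]
                    exact List.mem_append_right _ (List.mem_append_left _ (tri_mem_left _ _ _ _))
            obtain ⟨i1, i2⟩ := ih v b cs (by simpa using hc) k2 k1.symm hne'
              (fun z hz => hl z (by rw [List.getLast?_cons_cons]; exact hz))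
              (fun z hz => hd z (List.mem_cons_of_mem _ hz)) (fun _ _ _ _ => trivial) n2
            constructor
            · rw [List.nodup_cons]
              refine ⟨fun h8 => ?_, i1⟩
              obtain ⟨x, y, j1, j2, j3, j4, j5⟩ := i2 v h8
              have m1 := n3 (v, a) (tri_mem_left _ _ _ _)
              have m2 := n3 (v, b) (tri_mem_right _ _ _ _)
              have q1 : x ≠ a := fun h => m1 _ j4 (by rw [h])
              have q2 : y ≠ a := fun h => m1 _ j5 (by rw [h])
              have q3 : x ≠ b := fun h => m2 _ j4 (by rw [h])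
              have q4 : y ≠ b := fun h => m2 _ j5 (by rw [h])
              exact j1 ((third_unique hva k1 j2 hne q1 q3).trans (third_unique hva k1 j3 hne q2 q4).symm)
            · intro u hu
              rw [enc_cons]
              rcases List.mem_cons.1 hu with rfl | hu
              · exact ⟨a, b, hne.symm, hva, k1, List.mem_append_left _ (tri_mem_left _ _ _ _),
                  List.mem_append_left _ (tri_mem_right _ _ _ _)⟩
              · obtain ⟨x, y, j1, j2, j3, j4, j5⟩ := i2 u hu
                exact ⟨x, y, j1, j2, j3, List.mem_append_right _ j4, List.mem_append_right _ j5⟩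
      refine (key r o' o cs g1 g3 adj_o_o' g5 g4 (fun z hz => (hdom z hz).2) (fun _ _ _ _ => trivial) ?_).1
      rw [← g2]; exact hnd
    have hok : Ok N o' o r := ⟨adj_o_o', g3, hndr, fun z hz => (hdom z hz).2, g4, g5⟩
    refine ⟨o :: r, ⟨rfl, hdom, g3, ?_, g4⟩, cs, by simpa using g1, g2.symm⟩
    refine enc_nodup' r o' o cs g1 hok ?_
    rw [← g2]; exact h4

end Pool.Agent.CYL.T
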