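import Pool.Agent.Hhelper64.T12.TwoDefs

/-!
Self-avoiding paths on a planar lattice `G` wrapped around a cylinder, for the honeycomb lattice (`s = √3`) and for the
lattice `(3,12^2)` (`s = 2 + √3`). The translation by `i s` is a symmetry of `G`; the cylinder of circumference `s L` is `G`
modulo the translation by `i s L`. A path on the cylinder which starts at the vertex `0` is written as the list of the
vertices of its lift to `G`. A column has the width `(√3 / 2) s`.
-/

namespace Pool.Agent.CYL.Two

open Pool.Agent.Hhelper64.Two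

/-- `z` and `z'` are the same point of the cylinder of circumference `s L`. -/
def Same (s : ℝ) (L : ℕ) (z z' : ℂ) : Prop := ∃ k : ℤ, z' = z + k * (s * L * Complex.I)

/-- The self-avoiding paths `w = (w_0, ..., w_n)` (any `n`) on the cylinder of circumference `s L` which start at
`w_0 = 0`, stay in the `N` columns `0 ≤ Re z ≤ (√3 / 2) s N - 1` and end on the other side, `Re w_n = (√3 / 2) s N - 1`. -/
def Cross (G : Set ℂ) (s : ℝ) (L N : ℕ) : Set (List ℂ) :=
  {w | w.head? = some 0 ∧ (∀ z ∈ w, z ∈ G ∧ 0 ≤ z.re ∧ z.re ≤ Real.sqrt 3 / 2 * s * N - 1) ∧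
    w.IsChain (fun x y => dist x y = 1) ∧ w.Pairwise (fun x y => ¬ Same s L x y) ∧
    ∀ z ∈ w.getLast?, z.re = Real.sqrt 3 / 2 * s * N - 1}

/-- The critical weight `μ_G^(-number of vertices)`. -/
noncomputable def wt (G : Set ℂ) (w : List ℂ) : ℝ := (1 / muL G) ^ w.length

/-- The pairs `(w, w')` of crossing paths, both from `0`, with `w{1,...} ∩ w'{0,...} = ∅` on the cylinder. -/
def Avoid (G : Set ℂ) (s : ℝ) (L N : ℕ) : Set (List ℂ × List ℂ) :=
  {q | q.1 ∈ Cross G s L N ∧ q.2 ∈ Cross G s L N ∧ ∀ z ∈ q.1.tail, ∀ z' ∈ q.2, ¬ Same s L z z'}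

/-- The probability that `w{1,...}` and `w'{0,...}` are disjoint, for two independent critical crossing paths `w, w'`
(each value has probability proportional to its weight). -/
noncomputable def P (G : Set ℂ) (s : ℝ) (L N : ℕ) : ℝ :=
  (∑' q : Avoid G s L N, wt G q.1.1 * wt G q.1.2) / (∑' w : Cross G s L N, wt G w.1) ^ 2

end Pool.Agent.CYL.Two
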