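import Pool.Agent.CYL.T.Code

/-!
CYL on the lattice `(3,12^2)`: the code of a crossing path: `enc a R cs`, `R` a honeycomb path which comes from `a`,
`cs` the list of decorations.
-/

namespace Pool.Agent.CYL.T

open Pool.Agent.Hhelper14.SAW Pool.Agent.HHP Pool.Agent.QL Pool.Agent.BEX Pool.Agent.Hhelper64.T12 Pool.Agent.CYL
open scoped ENNReal

variable {L : ℕ}

/-- The passage through the triangle of `v`, from `a` to `b`. -/
def tri (a v b : ℤ × ℤ) (c : Bool) : List Dt :=
  if c then [(v, a), (v, third v a b), (v, b)] else [(v, a), (v, b)]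

/-- The list of darts. -/
def enc (a : ℤ × ℤ) : List (ℤ × ℤ) → List Bool → List Dt
  | v :: r, c :: cs => tri a v (r.headD (v + (1, 0))) c ++ enc v r cs
  | _, _ => []

lemma enc_cons (a v : ℤ × ℤ) (r : List (ℤ × ℤ)) (c : Bool) (cs : List Bool) :
    enc a (v :: r) (c :: cs) = tri a v (r.headD (v + (1, 0))) c ++ enc v r cs := by rw [enc]

lemma enc_nil (a : ℤ × ℤ) (cs : List Bool) : enc a [] cs = [] := by rw [enc]; simp

/-! ### one triangle -/

lemma tri_head (a v b : ℤ × ℤ) (c : Bool) : (tri a v b c).head? = some (v, a) := by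
  cases c <;> rfl

lemma tri_last (a v b : ℤ × ℤ) (c : Bool) : (tri a v b c).getLast? = some (v, b) := by
  cases c <;> rfl

lemma tri_length (a v b : ℤ × ℤ) (c : Bool) : (tri a v b c).length = if c then 3 else 2 := by
  cases c <;> rfl

lemma tri_fst {a v b : ℤ × ℤ} {c : Bool} {d : Dt} (h : d ∈ tri a v b c) : d.1 = v := by
  cases c <;> simp only [tri, if_true, if_false, Bool.false_eq_true, List.mem_cons, List.not_mem_nil, or_false] at h
  · rcases h with rfl | rfl <;> rfl
  · rcases h with rfl | rfl | rfl <;> rfl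

lemma tri_isD {a v b : ℤ × ℤ} {c : Bool} (ha : Adj v a) (hb : Adj v b) (hne : b ≠ a) {d : Dt}
    (h : d ∈ tri a v b c) : IsD d := by
  cases c <;> simp only [tri, if_true, if_false, Bool.false_eq_true, List.mem_cons, List.not_mem_nil, or_false] at h
  · rcases h with rfl | rfl
    · exact ha
    · exact hb
  · rcases h with rfl | rfl | rfl
    · exact ha
    · exact (third_adj ha hb hne).1
    · exact hb

lemma tri_chain {a v b : ℤ × ℤ} {c : Bool} (ha : Adj v a) (hb : Adj v b) (hne : b ≠ a) : (tri a v b c).IsChain LR := by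
  obtain ⟨h1, h2, h3⟩ := third_adj ha hb hne
  cases c
  · simp only [tri, Bool.false_eq_true, if_false, List.isChain_cons_cons, List.isChain_singleton, and_true]
    exact ⟨ha, hb, Or.inr ⟨rfl, hne.symm⟩⟩
  · simp only [tri, if_true, List.isChain_cons_cons, List.isChain_singleton, and_true]
    exact ⟨⟨ha, h1, Or.inr ⟨rfl, h2.symm⟩⟩, ⟨h1, hb, Or.inr ⟨rfl, h3⟩⟩⟩

lemma tri_mem_left (a v b : ℤ × ℤ) (c : Bool) : (v, a) ∈ tri a v b c := by cases c <;> simp [tri]
lemma tri_mem_right (a v b : ℤ × ℤ) (c : Bool) : (v, b) ∈ tri a v b c := by cases c <;> simp [tri]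

lemma tri_nodup {N : ℕ} {i : Fin L} {a v b : ℤ × ℤ} {c : Bool} (ha : Adj v a) (hb : Adj v b) (hne : b ≠ a) :
    ((tri a v b c).map (pd N i)).Nodup := by
  obtain ⟨h1, h2, h3⟩ := third_adj ha hb hne
  have key : ∀ x y : ℤ × ℤ, x ≠ y → pd N i (v, x) ≠ pd N i (v, y) := by
    intro x y hxy h
    have h4 : x - v = y - v := congrArg Prod.snd h
    exact hxy (sub_left_injective h4)
  cases c
  · simp only [tri, Bool.false_eq_true, if_false, List.map_cons, List.map_nil, List.nodup_cons, List.mem_singleton,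
      List.not_mem_nil, not_false_eq_true, List.nodup_nil, and_true]
    exact key _ _ hne.symm
  · simp only [tri, if_true, List.map_cons, List.map_nil, List.nodup_cons, List.mem_cons,
      List.not_mem_nil, not_false_eq_true, List.nodup_nil, and_true, or_false, not_or]
    exact ⟨⟨key _ _ h2.symm, key _ _ hne.symm⟩, key _ _ h3⟩

/-! ### the conditions -/

/-- A honeycomb path `v :: r` which comes from `a` and crosses to the last column. -/
structure Ok (N : ℕ) (a v : ℤ × ℤ) (r : List (ℤ × ℤ)) : Prop where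
  adj : Adj v a
  ch : (v :: r).IsChain Adj
  nd : (v :: r).Nodup
  dom : ∀ z ∈ v :: r, 0 ≤ F0 z ∧ F0 z ≤ 3 * N - 2
  last : ∀ z ∈ (v :: r).getLast?, F0 z = 3 * N - 2
  ne : r.headD (v + (1, 0)) ≠ a

lemma Ok.hon {N : ℕ} {a v : ℤ × ℤ} {r : List (ℤ × ℤ)} (h : Ok N a v r) : hon v := h.adj.1

lemma right_adj {N : ℕ} {v : ℤ × ℤ} (hv : hon v) (h : F0 v = 3 * N - 2) : Adj v (v + (1, 0)) := by
  obtain ⟨x, y⟩ := v
  simp only [Adj, Pool.Agent.Hhelper14.SAW.hon, U, F0, Prod.mk_add_mk, Prod.mk_sub_mk] at *
  omega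

lemma F0_right (v : ℤ × ℤ) : F0 (v + (1, 0)) = F0 v + 2 := by
  simp only [F0, Prod.fst_add, Prod.snd_add]; ring

lemma Ok.nxt {N : ℕ} {a v : ℤ × ℤ} {r : List (ℤ × ℤ)} (h : Ok N a v r) : Adj v (r.headD (v + (1, 0))) := by
  cases r with
  | nil => exact right_adj h.hon (h.last v (by simp))
  | cons b r => exact (List.isChain_cons_cons.1 h.ch).1

lemma Ok.tail {N : ℕ} {a v b : ℤ × ℤ} {r : List (ℤ × ℤ)} (h : Ok N a v (b :: r)) : Ok N v b r := by
  obtain ⟨h1, h2⟩ := List.isChain_cons_cons.1 h.ch
  have h3 := h.nd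
  have h4 := List.nodup_cons.1 h3
  refine ⟨h1.symm, h2, h4.2, fun z hz => h.dom z (List.mem_cons_of_mem _ hz), ?_, ?_⟩
  · intro z hz
    exact h.last z (by rw [List.getLast?_cons_cons]; exact hz)
  · cases r with
    | nil =>
      intro h5
      simp only [List.headD_nil] at h5
      have h6 : F0 b = 3 * N - 2 := h.last b (by simp)
      have h7 := (h.dom v (by simp)).2
      rw [← h5, F0_right] at h7
      omega
    | cons b' r =>
      simp only [List.headD_cons]
      rintro rfl
      exact h4.1 (by simp)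

lemma enc_head {a v : ℤ × ℤ} {r : List (ℤ × ℤ)} {c : Bool} {cs : List Bool} :
    (enc a (v :: r) (c :: cs)).head? = some (v, a) := by
  rw [enc_cons, List.head?_append, tri_head]
  rfl

lemma enc_length : ∀ (r : List (ℤ × ℤ)) (a : ℤ × ℤ) (cs : List Bool), cs.length = r.length →
    (enc a r cs).length = Pool.Agent.Hhelper64.T12.wt cs
  | [], a, cs, h => by
    rw [List.length_eq_zero_iff.1 h, enc_nil]; rfl
  | v :: r, a, [], h => by simp at h
  | v :: r, a, c :: cs, h => by
    rw [enc_cons, List.length_append, tri_length, wt_cons, enc_length r v cs (by simpa using h)]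

lemma enc_mem_fst : ∀ (r : List (ℤ × ℤ)) (a : ℤ × ℤ) (cs : List Bool) {d : Dt}, d ∈ enc a r cs → d.1 ∈ r
  | [], a, cs, d, h => by rw [enc_nil] at h; simp at h
  | v :: r, a, [], d, h => by rw [enc] at h; simp at h; simp
  | v :: r, a, c :: cs, d, h => by
    rw [enc_cons, List.mem_append] at h
    rcases h with h | h
    · rw [tri_fst h]; simp
    · exact List.mem_cons_of_mem _ (enc_mem_fst r v cs h)

/-- All properties of the code except the order modulo the period. -/
lemma enc_props {N : ℕ} : ∀ (r : List (ℤ × ℤ)) (a v : ℤ × ℤ) (cs : List Bool), cs.length = r.length + 1 → Ok N a v r →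
    (enc a (v :: r) cs).IsChain LR ∧ (∀ d ∈ enc a (v :: r) cs, IsD d) ∧
      ∀ d ∈ (enc a (v :: r) cs).getLast?, F0 d.2 = 3 * N
  | [], a, v, cs, hc, h => by
    obtain ⟨c, rfl⟩ : ∃ c, cs = [c] := List.length_eq_one_iff.1 (by simpa using hc)
    rw [enc_cons, enc_nil, List.append_nil]
    have h1 := h.nxt
    refine ⟨tri_chain h.adj h1 h.ne, fun d hd => tri_isD h.adj h1 h.ne hd, ?_⟩
    intro d hd
    rw [tri_last] at hd
    simp only [Option.mem_def, Option.some.injEq] at hd
    subst hd
    simp only [List.headD_nil]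
    rw [F0_right]
    have := h.last v (by simp)
    omega
  | b :: r, a, v, [], hc, h => by simp at hc
  | b :: r, a, v, c :: cs, hc, h => by
    rw [enc_cons]
    obtain ⟨h1, h2, h3⟩ := enc_props r v b cs (by simpa using hc) h.tail
    have h4 := h.nxt
    cases cs with
    | nil => simp at hc
    | cons c' cs =>
      refine ⟨?_, ?_, ?_⟩
      · rw [List.isChain_append]
        refine ⟨tri_chain h.adj h4 h.ne, h1, ?_⟩
        intro x hx y hy
        rw [tri_last] at hx
        rw [enc_head] at hy
        simp only [Option.mem_def, Option.some.injEq] at hx hy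
        subst hx hy
        simp only [List.headD_cons] at h4 ⊢
        exact ⟨h4, h4.symm, Or.inl ⟨rfl, rfl⟩⟩
      · intro d hd
        rw [List.mem_append] at hd
        rcases hd with hd | hd
        · exact tri_isD h.adj h4 h.ne hd
        · exact h2 d hd
      · intro d hd
        rw [List.getLast?_append] at hd
        refine h3 d ?_
        have : (enc v (b :: r) (c' :: cs)).getLast? ≠ none := by
          rw [Ne, List.getLast?_eq_none_iff]
          intro h5
          have := enc_head (a := v) (v := b) (r := r) (c := c') (cs := cs)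
          rw [h5] at this
          simp at this
        obtain ⟨x, hx⟩ := Option.ne_none_iff_exists'.1 this
        rw [hx] at hd ⊢
        simpa using hd

lemma enc_nodup {N : ℕ} {i : Fin L} : ∀ (r : List (ℤ × ℤ)) (a v : ℤ × ℤ) (cs : List Bool), cs.length = r.length + 1 →
    Ok N a v r → ((v :: r).map (DC.pf N i)).Nodup → ((enc a (v :: r) cs).map (pd N i)).Nodup
  | [], a, v, cs, hc, h, _ => by
    obtain ⟨c, rfl⟩ : ∃ c, cs = [c] := List.length_eq_one_iff.1 (by simpa using hc)
    rw [enc_cons, enc_nil, List.append_nil]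
    exact tri_nodup h.adj h.nxt h.ne
  | b :: r, a, v, [], hc, h, _ => by simp at hc
  | b :: r, a, v, c :: cs, hc, h, hn => by
    rw [enc_cons, List.map_append, List.nodup_append]
    rw [List.map_cons, List.nodup_cons] at hn
    refine ⟨tri_nodup h.adj h.nxt h.ne, enc_nodup r v b cs (by simpa using hc) h.tail hn.2, ?_⟩
    intro x hx y hy hxy
    obtain ⟨d, hd, rfl⟩ := List.mem_map.1 hx
    obtain ⟨d', hd', rfl⟩ := List.mem_map.1 hy
    apply hn.1
    have h1 : DC.pf N i d.1 = DC.pf N i d'.1 := congrArg Prod.fst hxy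
    rw [tri_fst hd] at h1
    rw [h1]
    exact List.mem_map_of_mem (enc_mem_fst _ _ _ hd')

/-! ### injectivity -/

lemma enc_dedup : ∀ (r : List (ℤ × ℤ)) (a : ℤ × ℤ) (cs : List Bool), cs.length = r.length → r.Nodup →
    ((enc a r cs).map Prod.fst).dedup = r
  | [], a, cs, _, _ => by rw [enc_nil]; simp
  | v :: r, a, [], hc, _ => by simp at hc
  | v :: r, a, c :: cs, hc, hn => by
    obtain ⟨h1, h2⟩ := List.nodup_cons.1 hn
    have ih := enc_dedup r v cs (by simpa using hc) h2
    have h3 : v ∉ (enc v r cs).map Prod.fst := by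
      intro h4
      obtain ⟨d, hd, rfl⟩ := List.mem_map.1 h4
      exact h1 (enc_mem_fst _ _ _ hd)
    rw [enc_cons, List.map_append]
    cases c
    · simp only [tri, Bool.false_eq_true, if_false, List.map_cons, List.map_nil, List.cons_append, List.nil_append]
      rw [List.dedup_cons_of_mem (by simp), List.dedup_cons_of_notMem h3, ih]
    · simp only [tri, if_true, List.map_cons, List.map_nil, List.cons_append, List.nil_append]
      rw [List.dedup_cons_of_mem (by simp), List.dedup_cons_of_mem (by simp), List.dedup_cons_of_notMem h3, ih]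

lemma enc_inj_cs {N : ℕ} : ∀ (r : List (ℤ × ℤ)) (a v : ℤ × ℤ) (cs cs' : List Bool), cs.length = r.length + 1 →
    cs'.length = r.length + 1 → Ok N a v r → enc a (v :: r) cs = enc a (v :: r) cs' → cs = cs'
  | r, a, v, [], cs', hc, _, _, _ => by simp at hc
  | r, a, v, c :: cs, [], _, hc, _, _ => by simp at hc
  | r, a, v, c :: cs, c' :: cs', hc, hc', h, he => by
    rw [enc_cons, enc_cons] at he
    have h1 := (third_adj h.adj h.nxt h.ne).2.2
    have hcc : c = c' := by
      cases c <;> cases c'
      · rfl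
      · simp only [tri, Bool.false_eq_true, if_false, if_true, List.cons_append, List.nil_append, List.cons.injEq,
          Prod.mk.injEq, true_and] at he
        exact absurd he.1.symm h1
      · simp only [tri, Bool.false_eq_true, if_false, if_true, List.cons_append, List.nil_append, List.cons.injEq,
          Prod.mk.injEq, true_and] at he
        exact absurd he.1 h1
      · rfl
    subst hcc
    have h2 := List.append_cancel_left he
    cases r with
    | nil =>
      obtain rfl : cs = [] := List.length_eq_zero_iff.1 (by simpa using hc)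
      obtain rfl : cs' = [] := List.length_eq_zero_iff.1 (by simpa using hc')
      rfl
    | cons b r =>
      rw [enc_inj_cs r v b cs cs' (by simpa using hc) (by simpa using hc') h.tail h2]

/-! ### two darts at every vertex -/

lemma enc_two {N : ℕ} : ∀ (r : List (ℤ × ℤ)) (a v : ℤ × ℤ) (cs : List Bool), cs.length = r.length + 1 → Ok N a v r →
    ∀ u ∈ v :: r, ∃ x y : ℤ × ℤ, x ≠ y ∧ Adj u x ∧ Adj u y ∧ (u, x) ∈ enc a (v :: r) cs ∧ (u, y) ∈ enc a (v :: r) cs
  | r, a, v, [], hc, _, _, _ => by simp at hc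
  | r, a, v, c :: cs, hc, h, u, hu => by
    rw [enc_cons]
    rcases List.mem_cons.1 hu with rfl | hu
    · exact ⟨a, _, h.ne.symm, h.adj, h.nxt, List.mem_append_left _ (tri_mem_left _ _ _ _),
        List.mem_append_left _ (tri_mem_right _ _ _ _)⟩
    · cases r with
      | nil => simp at hu
      | cons b r =>
        obtain ⟨x, y, h1, h2, h3, h4, h5⟩ := enc_two r v b cs (by simpa using hc) h.tail u hu
        exact ⟨x, y, h1, h2, h3, List.mem_append_right _ h4, List.mem_append_right _ h5⟩

/-- PIGEONHOLE: two darts at `v` and two darts at `u`, the same vertex of the cylinder, are not four different darts. -/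
lemma pigeon {N : ℕ} {i : Fin L} {u v a b x y : ℤ × ℤ} (ha : Adj v a) (hb : Adj v b) (hab : a ≠ b) (hx : Adj u x)
    (hy : Adj u y) (hxy : x ≠ y) (huv : DC.pf N i v = DC.pf N i u) (h1 : pd N i (v, a) ≠ pd N i (u, x))
    (h2 : pd N i (v, a) ≠ pd N i (u, y)) (h3 : pd N i (v, b) ≠ pd N i (u, x)) (h4 : pd N i (v, b) ≠ pd N i (u, y)) :
    False := by
  obtain ⟨k, hk⟩ := (DC.pf_eq_iff ha.1 hx.1).1 huv
  have key : ∀ z : ℤ × ℤ, Adj u z → Adj v (v + (z - u)) := by
    intro z hz
    refine ⟨ha.1, ?_, ?_⟩
    · have e : v + (z - u) = z - (u - v) := by ring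
      have hz2 := hz.2.1
      rw [e, hk]
      obtain ⟨z1, z2⟩ := z
      simp only [Pool.Agent.Hhelper14.SAW.hon, Prod.mk_sub_mk] at *
      omega
    · have e : v - (v + (z - u)) = u - z := by ring
      rw [e]
      exact hz.2.2
  have hne : ∀ c z : ℤ × ℤ, pd N i (v, c) ≠ pd N i (u, z) → v + (z - u) ≠ c := by
    intro c z h5 h6
    apply h5
    unfold pd
    rw [huv, ← h6]
    simp
  have e1 := third_unique ha hb (key x hx) hab.symm (hne a x h1) (hne b x h3)
  have e2 := third_unique ha hb (key y hy) hab.symm (hne a y h2) (hne b y h4)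
  apply hxy
  have e3 : v + (x - u) = v + (y - u) := e1.trans e2.symm
  have e4 : x - u = y - u := add_left_cancel e3
  exact sub_left_injective e4

lemma enc_nodup' {N : ℕ} {i : Fin L} : ∀ (r : List (ℤ × ℤ)) (a v : ℤ × ℤ) (cs : List Bool), cs.length = r.length + 1 →
    Ok N a v r → ((enc a (v :: r) cs).map (pd N i)).Nodup → ((v :: r).map (DC.pf N i)).Nodup
  | [], a, v, cs, hc, h, _ => by simp
  | b :: r, a, v, [], hc, h, _ => by simp at hc
  | b :: r, a, v, c :: cs, hc, h, hn => by
    rw [enc_cons, List.map_append, List.nodup_append] at hn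
    obtain ⟨h1, h2, h3⟩ := hn
    have ih := enc_nodup' r v b cs (by simpa using hc) h.tail h2
    rw [List.map_cons, List.nodup_cons]
    refine ⟨fun h4 => ?_, ih⟩
    obtain ⟨u, hu, hu'⟩ := List.mem_map.1 h4
    obtain ⟨x, y, g1, g2, g3, g4, g5⟩ := enc_two r v b cs (by simpa using hc) h.tail u hu
    exact pigeon (N := N) (i := i) h.adj h.nxt h.ne.symm g2 g3 g1 hu'.symm
      (h3 _ (List.mem_map_of_mem (tri_mem_left _ _ _ _)) _ (List.mem_map_of_mem g4))
      (h3 _ (List.mem_map_of_mem (tri_mem_left _ _ _ _)) _ (List.mem_map_of_mem g5))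
      (h3 _ (List.mem_map_of_mem (tri_mem_right _ _ _ _)) _ (List.mem_map_of_mem g4))
      (h3 _ (List.mem_map_of_mem (tri_mem_right _ _ _ _)) _ (List.mem_map_of_mem g5))

end Pool.Agent.CYL.T
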