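import Pool.Agent.CYL.T.Defs
import Pool.Agent.CYL.D.Fdef
import Pool.Agent.Hhelper64.T12.Two

/-!
CYL: the definitions for two lattices agree with the definitions for the honeycomb lattice. `√3/2 * √3 * N - 1 = (3N - 2)/2`,
`muL honeycomb = Honeycomb.muL` (rfl).
-/

namespace Pool.Agent.CYL.T

open Pool.Agent.Hhelper64.Two Pool.Agent.CYL

lemma hon_re (N : ℕ) : Real.sqrt 3 / 2 * Real.sqrt 3 * N - 1 = (3 * (N : ℝ) - 2) / 2 := by
  have h : Real.sqrt 3 * Real.sqrt 3 = 3 := Real.mul_self_sqrt (by norm_num)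
  linear_combination (N : ℝ) / 2 * h

theorem hon_cross (L N : ℕ) : Two.Cross honeycomb (Real.sqrt 3) L N = Plane.Cross L N := by
  unfold Two.Cross Plane.Cross
  rw [hon_re]
  rfl

theorem hon_wt (w : List ℂ) : Two.wt honeycomb w = Plane.wt w := rfl

theorem hon_avoid (L N : ℕ) : Two.Avoid honeycomb (Real.sqrt 3) L N = Plane.Avoid L N := by
  unfold Two.Avoid Plane.Avoid
  rw [hon_cross]
  rfl

theorem hon_P (L N : ℕ) : Two.P honeycomb (Real.sqrt 3) L N = Plane.P L N := by
  unfold Two.P Plane.P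
  rw [hon_avoid, hon_cross]
  rfl

end Pool.Agent.CYL.T
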