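import Pool.Agent.CYL.T.Defs
import Pool.Agent.CYL.T.Code
import Pool.Agent.Hhelper64.T12.Two

/-!
CYL on the lattice `(3,12^2)`: the paths in the plane (`Two.Cross truncated (2 + √3)`) and the lists of darts (`ID`).

Proof. `D d = (1 + 2/√3) emb d.1 + (emb d.2 - emb d.1 + 1)/√3`; `sim (D d) = em d` (`sim_eq`), `D` is injective (`em_inj`,
`sim_inj`), `z ∈ truncated ↔ ∃ d, IsD d ∧ z = D d` (`mem_trunc`, `mem_V12`), `dist (D d) (D e) = 1 ↔ LR d e` (`dist_sim`,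
`dist_em`), `D d0 = 0` (`sim_zero`). `len * (2 + √3) = √3` (`len = 2√3 - 3`), so `Same (2 + √3) L (D d) (D d')` iff
`em d' = em d + k √3 L i = em (d + k (-L, 2L))` iff `d' = d + k (-L, 2L)` (both components) iff `pd N i d = pd N i d'`
(`DC.pf_eq_iff`, `DC.emb_period`). Real part: `Re (D (v, w)) = F0 v / 2 + (F0 v + F0 w + 2) / (2 √3)` (`DC.emb_re`). With
`t = 3/2 + √3 = (√3/2)(2 + √3)` and `F0 v = 3j` or `3j + 1`: the four cases
`F0 v = 3j`, `F0 w = 3j - 2`: `t j`; `F0 v = 3j`, `F0 w = 3j + 1`: `t j + √3/2`; `F0 v = 3j + 1`, `F0 w = 3j`: `t j + 1/2 + √3/2`;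
`F0 v = 3j + 1`, `F0 w = 3j + 3`: `t (j + 1) - 1`. So `0 ≤ Re ≤ t N - 1` iff `0 ≤ j ≤ N - 1` iff `0 ≤ F0 v ≤ 3N - 2`, and
`Re = t N - 1` iff `F0 w = 3N` (for `F0 v ≤ 3N - 2`). `muL truncated = 1 / xx` (`muL_tr`, `muL_eq'`). Equivalences as
`DC.eqvE`, `DC.eqvE2` in CYL/D/Cov/Main.lean.
-/

namespace Pool.Agent.CYL.T

open Pool.Agent.Hhelper14.SAW Pool.Agent.Hhelper64.T12 Pool.Agent.Hhelper64.Two Pool.Agent.CYL
open scoped ENNReal

/-- The vertex of the lattice `(3,12^2)` on the dart `d`. -/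
noncomputable def Dm (d : Dt) : ℂ :=
  (1 + 2 / (Real.sqrt 3 : ℂ)) * emb d.1 + (emb d.2 - emb d.1 + 1) / (Real.sqrt 3 : ℂ)

lemma sim_Dm (d : Dt) : sim (Dm d) = em d := sim_eq _ _

lemma Dm_inj : Function.Injective Dm := by
  intro d e h
  apply em_inj
  rw [← sim_Dm, ← sim_Dm, h]

lemma mem_truncD {z : ℂ} : z ∈ truncated ↔ ∃ d : Dt, IsD d ∧ z = Dm d := by
  rw [mem_trunc, mem_V12]
  constructor
  · rintro ⟨d, hd, h⟩
    exact ⟨d, hd, sim_inj (h.trans (sim_Dm d).symm)⟩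
  · rintro ⟨d, hd, rfl⟩
    exact ⟨d, hd, sim_Dm d⟩

lemma dist_Dm {d e : Dt} (hd : IsD d) (he : IsD e) : dist (Dm d) (Dm e) = 1 ↔ LR d e := by
  rw [← dist_sim, sim_Dm, sim_Dm]
  exact dist_em hd he

lemma Dm_d0 : Dm d0 = 0 := by
  apply sim_inj
  rw [sim_Dm, sim_zero]

lemma len_period (L : ℕ) (k : ℤ) :
    (Pool.Agent.Hhelper64.ThreeTwelve.len : ℂ) * (k * (((2 + Real.sqrt 3 : ℝ) : ℂ) * L * Complex.I)) =
      emb (-(k * L), 2 * (k * L)) := by
  rw [DC.emb_period]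
  have h := sqrt3_sq
  have e1 : (Pool.Agent.Hhelper64.ThreeTwelve.len : ℂ) = 2 * (Real.sqrt 3 : ℂ) - 3 := by
    unfold Pool.Agent.Hhelper64.ThreeTwelve.len; push_cast; ring
  rw [e1]
  push_cast
  linear_combination (2 * (k : ℂ) * L * Complex.I) * h

lemma em_shift (d : Dt) (x : ℤ × ℤ) : em (d.1 + x, d.2 + x) = em d + emb x := by
  unfold Pool.Agent.Hhelper64.T12.em
  have h1 : ∀ y : ℤ × ℤ, emb (y + x) = emb y + emb x := by
    intro y
    have := emb_sub (y + x) x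
    rw [add_sub_cancel_right] at this
    rw [← this]; ring
  simp only [h1]
  ring

variable {L N : ℕ} {i : Fin L}

lemma pd_iff {d d' : Dt} (hd : IsD d) (hd' : IsD d') :
    pd N i d = pd N i d' ↔ ∃ k : ℤ, d' = (d.1 + (-(k * L), 2 * (k * L)), d.2 + (-(k * L), 2 * (k * L))) := by
  unfold pd
  rw [Prod.mk.injEq, DC.pf_eq_iff hd.1 hd'.1]
  constructor
  · rintro ⟨⟨k, hk⟩, h⟩
    refine ⟨k, Prod.ext ?_ ?_⟩
    · show d'.1 = d.1 + (-(k * L), 2 * (k * L))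
      rw [← hk]; abel
    · show d'.2 = d.2 + (-(k * L), 2 * (k * L))
      rw [← hk]
      have : d'.2 = (d'.2 - d'.1) + d'.1 := by abel
      rw [this, ← h]; abel
  · rintro ⟨k, rfl⟩
    exact ⟨⟨k, add_sub_cancel_left _ _⟩, by simp⟩

lemma same_iffT {d d' : Dt} (hd : IsD d) (hd' : IsD d') :
    Two.Same (2 + Real.sqrt 3) L (Dm d) (Dm d') ↔ pd N i d = pd N i d' := by
  rw [pd_iff hd hd']
  unfold Two.Same
  apply exists_congr
  intro k
  rw [← sim_inj.eq_iff, sim_Dm]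
  have h1 : sim (Dm d + k * (((2 + Real.sqrt 3 : ℝ) : ℂ) * L * Complex.I)) =
      em (d.1 + (-(k * L), 2 * (k * L)), d.2 + (-(k * L), 2 * (k * L))) := by
    rw [em_shift, ← sim_Dm, ← len_period]
    unfold sim
    ring
  rw [h1, em_inj.eq_iff]

/-! ### real parts -/

lemma Dm_re (d : Dt) : (Dm d).re = (F0 d.1 : ℝ) / 2 + Real.sqrt 3 / 6 * (F0 d.1 + F0 d.2 + 2) := by
  have h3 : (Real.sqrt 3) * (Real.sqrt 3) = 3 := Real.mul_self_sqrt (by norm_num)
  have hne : Real.sqrt 3 ≠ 0 := (Real.sqrt_pos.2 (by norm_num)).ne'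
  have e1 : (1 : ℝ) / Real.sqrt 3 = Real.sqrt 3 / 3 := by
    rw [div_eq_div_iff hne (by norm_num), h3]; ring
  have e2 : (Dm d).re = (1 + 2 * (1 / Real.sqrt 3)) * (emb d.1).re + ((emb d.2).re - (emb d.1).re + 1) * (1 / Real.sqrt 3) := by
    have : Dm d = ((1 + 2 * (1 / Real.sqrt 3) : ℝ) : ℂ) * emb d.1 + ((1 / Real.sqrt 3 : ℝ) : ℂ) * (emb d.2 - emb d.1 + 1) := by
      unfold Dm
      push_cast
      ring
    rw [this, Complex.add_re, Complex.re_ofReal_mul, Complex.re_ofReal_mul, Complex.add_re, Complex.sub_re, Complex.one_re]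
    ring
  rw [e2, e1, DC.emb_re, DC.emb_re]
  ring

lemma F0_cases {d : Dt} (hd : IsD d) : ∃ j : ℤ, (F0 d.1 = 3 * j ∧ F0 d.2 = 3 * j - 2) ∨ (F0 d.1 = 3 * j ∧ F0 d.2 = 3 * j + 1) ∨
    (F0 d.1 = 3 * j + 1 ∧ F0 d.2 = 3 * j) ∨ (F0 d.1 = 3 * j + 1 ∧ F0 d.2 = 3 * j + 3) := by
  obtain ⟨⟨a, b⟩, ⟨a', b'⟩⟩ := d
  obtain ⟨h1, h2, h3⟩ := hd
  simp only [hon, U, F0, Prod.mk_sub_mk] at h1 h2 h3 ⊢
  refine ⟨(2 * a + b) / 3, ?_⟩
  omega

lemma re_facts {d : Dt} (hd : IsD d) :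
    ((0 ≤ (Dm d).re ∧ (Dm d).re ≤ Real.sqrt 3 / 2 * (2 + Real.sqrt 3) * N - 1) ↔ (0 ≤ F0 d.1 ∧ F0 d.1 ≤ 3 * N - 2)) ∧
    (F0 d.1 ≤ 3 * N - 2 → ((Dm d).re = Real.sqrt 3 / 2 * (2 + Real.sqrt 3) * N - 1 ↔ F0 d.2 = 3 * N)) := by
  have h3 : (Real.sqrt 3) * (Real.sqrt 3) = 3 := Real.mul_self_sqrt (by norm_num)
  have h17 : (1.7 : ℝ) < Real.sqrt 3 := Real.lt_sqrt_of_sq_lt (by norm_num)
  have ht : Real.sqrt 3 / 2 * (2 + Real.sqrt 3) = 3 / 2 + Real.sqrt 3 := by linear_combination 1 / 2 * h3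
  rw [ht, Dm_re]
  obtain ⟨j, hj⟩ := F0_cases hd
  set t : ℝ := 3 / 2 + Real.sqrt 3 with htt
  have ht0 : 3 < t := by rw [htt]; linarith
  have key : ∀ x : ℝ, t * j ≤ x → x ≤ t * (j + 1) - 1 →
      ((0 ≤ x ∧ x ≤ t * N - 1) ↔ (0 ≤ j ∧ j ≤ N - 1)) := by
    intro x h1 h2
    constructor
    · rintro ⟨h4, h5⟩
      constructor
      · by_contra h6
        have h7 : (j : ℝ) ≤ -1 := by exact_mod_cast (by omega : j ≤ -1)
        nlinarith
      · by_contra h6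
        have h7 : (N : ℝ) ≤ j := by exact_mod_cast (by omega : (N : ℤ) ≤ j)
        nlinarith
    · rintro ⟨h4, h5⟩
      have h6 : (0 : ℝ) ≤ j := by exact_mod_cast h4
      have h7 : (j : ℝ) + 1 ≤ N := by exact_mod_cast (by omega : j + 1 ≤ (N : ℤ))
      constructor
      · nlinarith
      · nlinarith
  have key2 : ∀ x : ℝ, x < t * (j + 1) - 1 → j ≤ N - 1 → x ≠ t * N - 1 := by
    intro x h1 h2 h4
    have h7 : (j : ℝ) + 1 ≤ N := by exact_mod_cast (by omega : j + 1 ≤ (N : ℤ))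
    nlinarith
  rcases hj with ⟨ha, hb⟩ | ⟨ha, hb⟩ | ⟨ha, hb⟩ | ⟨ha, hb⟩ <;> rw [ha, hb] <;> push_cast
  · have e : (3 * (j : ℝ)) / 2 + Real.sqrt 3 / 6 * (3 * j + (3 * j - 2) + 2) = t * j := by rw [htt]; ring
    rw [e]
    constructor
    · rw [key _ le_rfl (by nlinarith)]; omega
    · intro h
      constructor
      · intro h5
        exact absurd h5 (key2 _ (by nlinarith) (by omega))
      · intro h5; omega
  · have e : (3 * (j : ℝ)) / 2 + Real.sqrt 3 / 6 * (3 * j + (3 * j + 1) + 2) = t * j + Real.sqrt 3 / 2 := by rw [htt]; ring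
    rw [e]
    constructor
    · rw [key _ (by linarith) (by nlinarith)]; omega
    · intro h
      constructor
      · intro h5
        exact absurd h5 (key2 _ (by nlinarith) (by omega))
      · intro h5; omega
  · have e : (3 * (j : ℝ) + 1) / 2 + Real.sqrt 3 / 6 * (3 * j + 1 + 3 * j + 2) = t * j + 1 / 2 + Real.sqrt 3 / 2 := by rw [htt]; ring
    rw [e]
    constructor
    · rw [key _ (by linarith) (by nlinarith)]; omega
    · intro h
      constructor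
      · intro h5
        exact absurd h5 (key2 _ (by nlinarith) (by omega))
      · intro h5; omega
  · have e : (3 * (j : ℝ) + 1) / 2 + Real.sqrt 3 / 6 * (3 * j + 1 + (3 * j + 3) + 2) = t * (j + 1) - 1 := by rw [htt]; ring
    rw [e]
    constructor
    · rw [key _ (by nlinarith) le_rfl]; omega
    · intro h
      constructor
      · intro h5
        have h6 : (j : ℝ) + 1 = N := by
          have h7 : t * ((j : ℝ) + 1) = t * N := by linarith
          exact mul_left_cancel₀ (by linarith : t ≠ 0) h7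
        have h8 : j + 1 = (N : ℤ) := by exact_mod_cast h6
        omega
      · intro h5
        have h8 : j + 1 = (N : ℤ) := by omega
        have h6 : (j : ℝ) + 1 = N := by exact_mod_cast h8
        rw [h6]

/-! ### the paths -/

lemma chain_ofT : ∀ {R : List Dt}, (∀ x ∈ R, IsD x) →
    (R.map Dm).IsChain (fun x y => dist x y = 1) → R.IsChain LR
  | [], _, _ => by simp
  | [x], _, _ => by simp
  | x :: y :: R, h, hc => by
    simp only [List.map_cons] at hc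
    obtain ⟨h1, h2⟩ := List.isChain_cons_cons.1 hc
    refine List.isChain_cons_cons.2 ⟨(dist_Dm (h x (by simp)) (h y (by simp))).1 h1, ?_⟩
    exact chain_ofT (fun z hz => h z (List.mem_cons_of_mem _ hz)) (by simpa using h2)

lemma chain_Dm : ∀ {R : List Dt}, R.IsChain LR → (R.map Dm).IsChain (fun x y => dist x y = 1)
  | [], _ => by simp
  | [x], _ => by simp
  | x :: y :: R, hc => by
    obtain ⟨h1, h2⟩ := List.isChain_cons_cons.1 hc
    have := chain_Dm h2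
    simp only [List.map_cons] at this ⊢
    exact List.isChain_cons_cons.2 ⟨(dist_Dm h1.1 h1.2.1).2 h1, this⟩

lemma lift_Dm : ∀ {w : List ℂ}, (∀ z ∈ w, z ∈ truncated) → ∃ R : List Dt, R.map Dm = w ∧ ∀ x ∈ R, IsD x
  | [], _ => ⟨[], rfl, by simp⟩
  | z :: w, h => by
    obtain ⟨R, h1, h2⟩ := lift_Dm (w := w) (fun x hx => h x (List.mem_cons_of_mem _ hx))
    obtain ⟨x, hx1, hx2⟩ := mem_truncD.1 (h z (by simp))
    refine ⟨x :: R, by rw [List.map_cons, h1, ← hx2], ?_⟩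
    intro y hy
    rcases List.mem_cons.1 hy with e | hy
    · rw [e]; exact hx1
    · exact h2 y hy

lemma pairwise_iffT {R : List Dt} (h : ∀ x ∈ R, IsD x) :
    (R.map Dm).Pairwise (fun x y => ¬ Two.Same (2 + Real.sqrt 3) L x y) ↔ (R.map (pd N i)).Nodup := by
  unfold List.Nodup
  rw [List.pairwise_map, List.pairwise_map]
  constructor
  · intro h1
    refine h1.imp_of_mem ?_
    intro a b ha hb h2 h3
    exact h2 ((same_iffT (h a ha) (h b hb)).2 h3)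
  · intro h1
    refine h1.imp_of_mem ?_
    intro a b ha hb h2 h3
    exact h2 ((same_iffT (h a ha) (h b hb)).1 h3)

lemma Dm_mem_iff {R : List Dt} (h : ∀ x ∈ R, IsD x) :
    R.map Dm ∈ Two.Cross truncated (2 + Real.sqrt 3) L N ↔ R ∈ ID N i := by
  have hh : (R.map Dm).head? = some 0 ↔ R.head? = some d0 := by
    rw [List.head?_map]
    cases R.head? with
    | none => simp
    | some a =>
      simp only [Option.map_some, Option.some.injEq]
      rw [← Dm_d0, Dm_inj.eq_iff]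
  have hr : (∀ z ∈ R.map Dm, z ∈ truncated ∧ 0 ≤ z.re ∧ z.re ≤ Real.sqrt 3 / 2 * (2 + Real.sqrt 3) * N - 1) ↔
      ∀ d ∈ R, IsD d ∧ 0 ≤ F0 d.1 ∧ F0 d.1 ≤ 3 * N - 2 := by
    constructor
    · intro h2 d hd
      exact ⟨h d hd, (re_facts (h d hd)).1.1 (h2 _ (List.mem_map_of_mem hd)).2⟩
    · intro h2 z hz
      obtain ⟨d, hd, rfl⟩ := List.mem_map.1 hz
      exact ⟨mem_truncD.2 ⟨d, h d hd, rfl⟩, (re_facts (h d hd)).1.2 (h2 d hd).2⟩
  have hl : (∀ d ∈ R, IsD d ∧ 0 ≤ F0 d.1 ∧ F0 d.1 ≤ 3 * N - 2) →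
      ((∀ z ∈ (R.map Dm).getLast?, z.re = Real.sqrt 3 / 2 * (2 + Real.sqrt 3) * N - 1) ↔
        ∀ d ∈ R.getLast?, F0 d.2 = 3 * N) := by
    intro h2
    rw [List.getLast?_map]
    cases h5 : R.getLast? with
    | none => simp
    | some a =>
      have ha : a ∈ R := List.mem_of_getLast? h5
      simp only [Option.map_some, Option.mem_def, Option.some.injEq, forall_eq']
      exact (re_facts (h a ha)).2 (h2 a ha).2.2
  constructor
  · rintro ⟨h1, h2, h3, h4, h5⟩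
    exact ⟨hh.1 h1, hr.1 h2, chain_ofT h h3, (pairwise_iffT h).1 h4, (hl (hr.1 h2)).1 h5⟩
  · rintro ⟨h1, h2, h3, h4, h5⟩
    exact ⟨hh.2 h1, hr.2 h2, chain_Dm h3, (pairwise_iffT h).2 h4, (hl h2).2 h5⟩

lemma Dm_surj {w : List ℂ} (hw : w ∈ Two.Cross truncated (2 + Real.sqrt 3) L N) (i : Fin L) :
    ∃ R ∈ ID N i, R.map Dm = w := by
  obtain ⟨R, hR, h⟩ := lift_Dm (fun z hz => (hw.2.1 z hz).1)
  refine ⟨R, ?_, hR⟩
  rw [← hR] at hw
  exact (Dm_mem_iff h).1 hw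

lemma ofReal_wtT (w : List ℂ) : ENNReal.ofReal (Two.wt truncated w) = xT ^ w.length := by
  have h : 1 / muL truncated = xx := by
    rw [muL_tr, muL_eq' (em_mem isD_d0), one_div_one_div]
  unfold Two.wt xT
  rw [h, ENNReal.ofReal_pow xx_pos.le]

/-- Paths of the plane and lists of darts. -/
noncomputable def eqvT (N : ℕ) (i : Fin L) : ID N i ≃ Two.Cross truncated (2 + Real.sqrt 3) L N :=
  Equiv.ofBijective (fun R => ⟨R.1.map Dm, (Dm_mem_iff fun x hx => (R.2.2.1 x hx).1).2 R.2⟩) <| by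
    constructor
    · intro R R' h
      exact Subtype.ext (List.map_injective_iff.2 Dm_inj (congrArg Subtype.val h))
    · intro w
      obtain ⟨R, hR, h⟩ := Dm_surj w.2 i
      exact ⟨⟨R, hR⟩, Subtype.ext h⟩

lemma avoid_iffT {q : List Dt × List Dt} (h1 : q.1 ∈ ID N i) (h2 : q.2 ∈ ID N i) :
    (∀ z ∈ (q.1.map Dm).tail, ∀ z' ∈ q.2.map Dm, ¬ Two.Same (2 + Real.sqrt 3) L z z') ↔
      ∀ d ∈ q.1.tail, ∀ d' ∈ q.2, pd N i d ≠ pd N i d' := by
  have hh : ∀ z ∈ q.1.tail, ∀ z' ∈ q.2,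
      (Two.Same (2 + Real.sqrt 3) L (Dm z) (Dm z') ↔ pd N i z = pd N i z') := by
    intro z hz z' hz'
    exact same_iffT (h1.2.1 z (List.mem_of_mem_tail hz)).1 (h2.2.1 z' hz').1
  rw [← List.map_tail]
  constructor
  · intro h z hz z' hz' he
    exact h _ (List.mem_map_of_mem hz) _ (List.mem_map_of_mem hz') ((hh z hz z' hz').2 he)
  · intro h z hz z' hz' he
    obtain ⟨x, hx, rfl⟩ := List.mem_map.1 hz
    obtain ⟨x', hx', rfl⟩ := List.mem_map.1 hz'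
    exact h x hx x' hx' ((hh x hx x' hx').1 he)

/-- Pairs of paths of the plane and pairs of lists of darts. -/
noncomputable def eqvT2 (N : ℕ) (i : Fin L) : ID2 N i ≃ Two.Avoid truncated (2 + Real.sqrt 3) L N :=
  Equiv.ofBijective (fun q => ⟨(q.1.1.map Dm, q.1.2.map Dm),
      (Dm_mem_iff fun x hx => (q.2.1.2.1 x hx).1).2 q.2.1,
      (Dm_mem_iff fun x hx => (q.2.2.1.2.1 x hx).1).2 q.2.2.1, (avoid_iffT q.2.1 q.2.2.1).2 q.2.2.2⟩) <| by
    constructor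
    · intro q q' h
      have h1 := congrArg Subtype.val h
      rw [Prod.mk.injEq] at h1
      exact Subtype.ext (Prod.ext (List.map_injective_iff.2 Dm_inj h1.1) (List.map_injective_iff.2 Dm_inj h1.2))
    · rintro ⟨⟨w, w'⟩, h1, h2, h3⟩
      obtain ⟨R, hR, rfl⟩ := Dm_surj h1 i
      obtain ⟨R', hR', rfl⟩ := Dm_surj h2 i
      exact ⟨⟨(R, R'), hR, hR', (avoid_iffT (q := (R, R')) hR hR').1 h3⟩, rfl⟩

theorem pl_one {L N : ℕ} (hL : 2 ≤ L) (hN : 1 ≤ N) (i : Fin L) :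
    ∑' w : Two.Cross truncated (2 + Real.sqrt 3) L N, ENNReal.ofReal (Two.wt truncated w.1) =
      ∑' P : ID N i, xT ^ P.1.length := by
  rw [← (eqvT N i).tsum_eq]
  apply tsum_congr
  intro R
  rw [ofReal_wtT]
  show xT ^ (R.1.map Dm).length = _
  rw [List.length_map]

theorem pl_two {L N : ℕ} (hL : 2 ≤ L) (hN : 1 ≤ N) (i : Fin L) :
    ∑' q : Two.Avoid truncated (2 + Real.sqrt 3) L N, ENNReal.ofReal (Two.wt truncated q.1.1 * Two.wt truncated q.1.2) =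
      ∑' q : ID2 N i, xT ^ (q.1.1.length + q.1.2.length) := by
  rw [← (eqvT2 N i).tsum_eq]
  apply tsum_congr
  intro q
  have hpos : 0 ≤ Two.wt truncated ((eqvT2 N i q).1.1) := by
    have h : 1 / muL truncated = xx := by
      rw [muL_tr, muL_eq' (em_mem isD_d0), one_div_one_div]
    unfold Two.wt
    rw [h]
    exact pow_nonneg xx_pos.le _
  rw [ENNReal.ofReal_mul hpos, ofReal_wtT, ofReal_wtT, pow_add]
  show xT ^ (q.1.1.map Dm).length * xT ^ (q.1.2.map Dm).length = _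
  simp only [List.length_map]

end Pool.Agent.CYL.T
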