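import Pool.Agent.CYL.T.Sum
import Pool.Agent.CYL.T.Pl
import Pool.Agent.CYL.T.Hon
import Pool.Agent.CYL.D.Final

/-!
CYL on two lattices: `P (3,12^2) = (1 + x~)^(-2) P (honeycomb)` on the cylinder; transfer of the theorems on `log P`.
-/

namespace Pool.Agent.CYL.T

open Pool.Agent.Hhelper14.SAW Pool.Agent.HHP Pool.Agent.QL Pool.Agent.BEX Pool.Agent.Hhelper64.T12
open Pool.Agent.Hhelper64.Two Pool.Agent.CYL
open scoped ENNReal Topology
open Filter

lemma wt_nonneg (w : List ℂ) : 0 ≤ Two.wt truncated w := by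
  unfold Two.wt
  have : 0 ≤ muL truncated := by
    unfold muL
    exact Real.iInf_nonneg fun n => by positivity
  positivity

/-- The factor of the first triangle. -/
noncomputable def fR : ℝ := fT.toReal

lemma fR_pos : 0 < fR := by
  have hE0 : xE ≠ 0 := by unfold xE; exact (ENNReal.ofReal_pos.2 xc_pos).ne'
  have hET : xE ≠ ⊤ := ENNReal.ofReal_ne_top
  have hT0 : xT ≠ 0 := by unfold xT; exact (ENNReal.ofReal_pos.2 xx_pos).ne'
  have hTT : xT ≠ ⊤ := ENNReal.ofReal_ne_top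
  unfold fR fT
  refine ENNReal.toReal_pos ?_ ?_
  · exact pow_ne_zero _ (ENNReal.div_ne_zero.2 ⟨pow_ne_zero _ hT0, hET⟩)
  · exact ENNReal.pow_ne_top (ENNReal.div_ne_top (ENNReal.pow_ne_top hTT) hE0)

/-- The sums over the single paths. -/
theorem main_one {L N : ℕ} (hL : 2 ≤ L) (hN : 1 ≤ N) :
    Summable (fun w : Two.Cross truncated (2 + Real.sqrt 3) L N => Two.wt truncated w.1) ∧
      ∑' w : Two.Cross truncated (2 + Real.sqrt 3) L N, Two.wt truncated w.1 = ∑' w : Plane.Cross L N, Plane.wt w.1 := by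
  set c : Fin L := ⟨0, by omega⟩ with hc
  have hcm : ∑ e : Fin L, cm N (ub N c) (ut e) ≠ ⊤ :=
    ENNReal.sum_ne_top.2 fun e _ => ne_top_of_le_ne_top ENNReal.one_ne_top (cm_cross_le N c e)
  have h1 := Last.tsum_of (fun w : Plane.Cross L N => Last.wt_nonneg w.1) (final_cov1 L N hL hN c) hcm
  have h2 : ∑' w : Two.Cross truncated (2 + Real.sqrt 3) L N, ENNReal.ofReal (Two.wt truncated w.1) =
      ∑ e, cm N (ub N c) (ut e) := by
    rw [pl_one hL hN c, sum_one hN c, ← final_cov1 L N hL hN c, ← (DC.eqvE N c).tsum_eq]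
    refine tsum_congr fun R => ?_
    rw [DC.ofReal_wt]
    show _ = xE ^ (R.1.map emb).length
    rw [List.length_map]
  have h3 := Last.tsum_of (fun w : Two.Cross truncated (2 + Real.sqrt 3) L N => wt_nonneg w.1) h2 hcm
  exact ⟨h3.1, h3.2.trans h1.2.symm⟩

/-- The sums over the pairs. -/
theorem main_two {L N : ℕ} (hL : 2 ≤ L) (hN : 1 ≤ N) :
    ∑' q : Two.Avoid truncated (2 + Real.sqrt 3) L N, Two.wt truncated q.1.1 * Two.wt truncated q.1.2 =
      fR * ∑' q : Plane.Avoid L N, Plane.wt q.1.1 * Plane.wt q.1.2 := by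
  set c : Fin L := ⟨0, by omega⟩ with hc
  have hvm : vm N c ≠ ⊤ := ne_top_of_le_ne_top (ENNReal.mul_ne_top (by norm_num) (Zc_two_ne_top L N)) (vm_le hL N c)
  have hfT : fT ≠ ⊤ := by
    intro h
    have := fR_pos
    unfold fR at this
    rw [h] at this
    simp at this
  have h1 := Last.tsum_of (fun q : Plane.Avoid L N => mul_nonneg (Last.wt_nonneg q.1.1) (Last.wt_nonneg q.1.2))
    (final_cov2 L N hL hN c) hvm
  have h2 : ∑' q : Two.Avoid truncated (2 + Real.sqrt 3) L N,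
      ENNReal.ofReal (Two.wt truncated q.1.1 * Two.wt truncated q.1.2) = fT * vm N c := by
    rw [pl_two hL hN c, sum_two hN c, ← final_cov2 L N hL hN c, ← (DC.eqvE2 N c).tsum_eq]
    congr 1
    refine tsum_congr fun q => ?_
    rw [ENNReal.ofReal_mul (Last.wt_nonneg _), DC.ofReal_wt, DC.ofReal_wt, pow_add]
    show _ = xE ^ (q.1.1.map emb).length * xE ^ (q.1.2.map emb).length
    rw [List.length_map, List.length_map]
  have h3 := Last.tsum_of (fun q : Two.Avoid truncated (2 + Real.sqrt 3) L N => mul_nonneg (wt_nonneg q.1.1)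
    (wt_nonneg q.1.2)) h2 (ENNReal.mul_ne_top hfT hvm)
  rw [h3.2, h1.2, ENNReal.toReal_mul]
  rfl

/-- The probabilities on the two lattices. -/
theorem main_P {L N : ℕ} (hL : 2 ≤ L) (hN : 1 ≤ N) :
    Two.P truncated (2 + Real.sqrt 3) L N = fR * Plane.P L N := by
  unfold Two.P Plane.P
  rw [main_two hL hN, (main_one hL hN).2, mul_div_assoc]

/-- The two lattices with their periods. -/
def IsLat (G : Set ℂ) (s : ℝ) : Prop := (G = honeycomb ∧ s = Real.sqrt 3) ∨ (G = truncated ∧ s = 2 + Real.sqrt 3)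

/-- On both lattices the probability is the one of the honeycomb lattice up to a constant factor. -/
theorem lat_P {G : Set ℂ} {s : ℝ} (h : IsLat G s) : ∃ f : ℝ, 0 < f ∧ ∀ L N : ℕ, 2 ≤ L → 1 ≤ N →
    Two.P G s L N = f * Plane.P L N := by
  rcases h with ⟨rfl, rfl⟩ | ⟨rfl, rfl⟩
  · exact ⟨1, one_pos, fun L N _ _ => by rw [hon_P, one_mul]⟩
  · exact ⟨fR, fR_pos, fun L N hL hN => main_P hL hN⟩

theorem lat_sum {G : Set ℂ} {s : ℝ} (h : IsLat G s) {L N : ℕ} (hL : 2 ≤ L) (hN : 1 ≤ N) :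
    Summable fun w : Two.Cross G s L N => Two.wt G w.1 := by
  rcases h with ⟨rfl, rfl⟩ | ⟨rfl, rfl⟩
  · have h1 : ∀ w : List ℂ, Two.wt honeycomb w = Plane.wt w := hon_wt
    rw [hon_cross]
    simp_rw [h1]
    set c : Fin L := ⟨0, by omega⟩ with hc
    have hcm : ∑ e : Fin L, cm N (ub N c) (ut e) ≠ ⊤ :=
      ENNReal.sum_ne_top.2 fun e _ => ne_top_of_le_ne_top ENNReal.one_ne_top (cm_cross_le N c e)
    exact (Last.tsum_of (fun w : Plane.Cross L N => Last.wt_nonneg w.1) (final_cov1 L N hL hN c) hcm).1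
  · exact (main_one hL hN).1

end Pool.Agent.CYL.T
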