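import Pool.Agent.CYL.T.Dc

/-!
CYL on the lattice `(3,12^2)`: the sums over the lists of darts and the sums over the honeycomb paths.
-/

namespace Pool.Agent.CYL.T

open Pool.Agent.Hhelper14.SAW Pool.Agent.HHP Pool.Agent.QL Pool.Agent.BEX Pool.Agent.Hhelper64.T12 Pool.Agent.CYL
open scoped ENNReal

variable {L : ℕ}

/-! ### decorations -/

/-- Lists of `n` decorations. -/
abbrev BL (n : ℕ) : Type := {cs : List Bool // cs.length = n}

/-- The weight of a list of decorations. -/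
noncomputable abbrev wB (cs : List Bool) : ℝ≥0∞ := xT ^ Pool.Agent.Hhelper64.T12.wt cs

lemma xT_eq : xT ^ 2 + xT ^ 3 = xE := by
  have h1 := xx_pos
  have h2 := xx_eq
  have h3 := mu_pos
  unfold xT xE xc
  rw [← ENNReal.ofReal_pow h1.le, ← ENNReal.ofReal_pow h1.le, ← ENNReal.ofReal_add (by positivity) (by positivity)]
  congr 1
  rw [eq_div_iff h3.ne']
  linarith

/-- Splitting off the first decoration. -/
def eqvB (n : ℕ) : Bool × BL n ≃ BL (n + 1) where
  toFun p := ⟨p.1 :: p.2.1, by simp [p.2.2]⟩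
  invFun cs := (cs.1.headD false, ⟨cs.1.tail, by rw [List.length_tail, cs.2]; rfl⟩)
  left_inv p := by simp
  right_inv cs := by
    obtain ⟨cs, hcs⟩ := cs
    cases cs with
    | nil => simp at hcs
    | cons c cs => simp

theorem sum_BL : ∀ n : ℕ, ∑' cs : BL n, wB cs.1 = xE ^ n
  | 0 => by
    rw [tsum_eq_single (⟨[], rfl⟩ : BL 0)]
    · simp [wB, Pool.Agent.Hhelper64.T12.wt]
    · rintro ⟨cs, hcs⟩ hne
      exact absurd (Subtype.ext (List.length_eq_zero_iff.1 hcs)) hne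
  | n + 1 => by
    rw [← (eqvB n).tsum_eq, ENNReal.tsum_prod', tsum_fintype, Fintype.sum_bool]
    have h : ∀ c : Bool, ∑' cs : BL n, wB ((eqvB n) (c, cs)).1 = xT ^ (if c then 3 else 2) * xE ^ n := by
      intro c
      rw [← sum_BL n, ← ENNReal.tsum_mul_left]
      refine tsum_congr fun cs => ?_
      show xT ^ Pool.Agent.Hhelper64.T12.wt (c :: cs.1) = _
      rw [wt_cons, pow_add]
    rw [h, h]
    simp only [if_true, Bool.false_eq_true, if_false]
    rw [← add_mul, add_comm (xT ^ 3), xT_eq, pow_succ, mul_comm]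

/-! ### single paths -/

/-- Codes and crossing paths. -/
noncomputable def eqv1 {N : ℕ} (hN : 1 ≤ N) (i : Fin L) : (Σ R : DC.IP N i, BL R.1.length) ≃ ID N i :=
  Equiv.ofBijective (fun p => ⟨enc o' p.1.1 p.2.1, enc_mem hN p.1.2 p.2.2⟩) <| by
    constructor
    · rintro ⟨⟨R, hR⟩, ⟨cs, hcs⟩⟩ ⟨⟨R', hR'⟩, ⟨cs', hcs'⟩⟩ h
      have h1 : enc o' R cs = enc o' R' cs' := congrArg Subtype.val h
      have h2 := enc_dedup R o' cs hcs (nodup_of_map hR.2.2.2.1)
      have h3 := enc_dedup R' o' cs' hcs' (nodup_of_map hR'.2.2.2.1)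
      rw [h1, h3] at h2
      subst h2
      obtain ⟨b, r, rfl, hok⟩ := ok_of hN hR
      have h4 := enc_inj_cs (b :: r) o' o cs cs' (by simpa using hcs) (by simpa using hcs') hok h1
      subst h4
      rfl
    · rintro ⟨P, hP⟩
      obtain ⟨R, hR, cs, hcs, rfl⟩ := enc_surj hN hP
      exact ⟨⟨⟨R, hR⟩, ⟨cs, hcs⟩⟩, rfl⟩

theorem sum_one {N : ℕ} (hN : 1 ≤ N) (i : Fin L) :
    ∑' P : ID N i, xT ^ P.1.length = ∑' R : DC.IP N i, xE ^ R.1.length := by
  rw [← (eqv1 hN i).tsum_eq, ENNReal.tsum_sigma']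
  refine tsum_congr fun R => ?_
  rw [← sum_BL R.1.length]
  refine tsum_congr fun cs => ?_
  show xT ^ (enc o' R.1 cs.1).length = _
  rw [enc_length R.1 o' cs.1 cs.2]

/-! ### pairs -/

/-- Every vertex of a crossing path carries two darts. -/
lemma two_darts {N : ℕ} (hN : 1 ≤ N) {i : Fin L} {R : List (ℤ × ℤ)} (h : R ∈ DC.IP N i) {cs : List Bool}
    (hc : cs.length = R.length) {u : ℤ × ℤ} (hu : u ∈ R) :
    ∃ x y : ℤ × ℤ, x ≠ y ∧ Adj u x ∧ Adj u y ∧ (u, x) ∈ enc o' R cs ∧ (u, y) ∈ enc o' R cs := by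
  obtain ⟨b, r, rfl, hok⟩ := ok_of hN h
  exact enc_two (b :: r) o' o cs (by simpa using hc) hok u hu

lemma o_nbr {b b' : ℤ × ℤ} (hb : Adj o b) (hb' : Adj o b') (h1 : b ≠ o') (h2 : b' ≠ o') :
    b' = b ∨ b' = third o o' b := by
  by_cases h : b' = b
  · exact Or.inl h
  · exact Or.inr (third_unique adj_o_o' hb hb' h1 h2 h)

/-- The event for the codes. -/
theorem av_iff {N : ℕ} (hN : 1 ≤ N) {i : Fin L} {R R' : List (ℤ × ℤ)} (hR : R ∈ DC.IP N i) (hR' : R' ∈ DC.IP N i)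
    {c c' : Bool} {t t' : List Bool} (hc : (c :: t).length = R.length) (hc' : (c' :: t').length = R'.length) :
    (∀ d ∈ (enc o' R (c :: t)).tail, ∀ d' ∈ enc o' R' (c' :: t'), pd N i d ≠ pd N i d') ↔
      (c = false ∧ c' = false ∧ ∀ z ∈ R.tail, ∀ z' ∈ R', DC.pf N i z ≠ DC.pf N i z') := by
  have htwo' := fun (u : ℤ × ℤ) (hu : u ∈ R') => two_darts hN hR' hc' hu
  obtain ⟨b, r, rfl, hok⟩ := ok_of hN hR
  obtain ⟨b', r', rfl, hok'⟩ := ok_of hN hR'
  have hob := hok.nxt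
  have hob' := hok'.nxt
  have hbne := hok.ne
  have hbne' := hok'.ne
  simp only [List.headD_cons] at hob hob' hbne hbne'
  have hE : enc o' (o :: b :: r) (c :: t) = tri o' o b c ++ enc o (b :: r) t := by rw [enc_cons]; rfl
  have hE' : enc o' (o :: b' :: r') (c' :: t') = tri o' o b' c' ++ enc o (b' :: r') t' := by rw [enc_cons]; rfl
  have hlen : t.length = r.length + 1 := by simpa using hc
  have hlen' : t'.length = r'.length + 1 := by simpa using hc'
  rw [List.tail_cons]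
  constructor
  · intro hD
    -- darts of the tail
    have hb_mem : (o, b) ∈ (enc o' (o :: b :: r) (c :: t)).tail := by
      rw [hE]; cases c <;> simp [tri]
    have hsub : ∀ d ∈ enc o (b :: r) t, d ∈ (enc o' (o :: b :: r) (c :: t)).tail := by
      intro d hd
      rw [hE]; cases c <;> simp [tri, hd]
    have hb'_mem : (o, b') ∈ enc o' (o :: b' :: r') (c' :: t') := by
      rw [hE']; exact List.mem_append_left _ (tri_mem_right _ _ _ _)
    have hbb' : b' ≠ b := by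
      rintro rfl
      exact hD _ hb_mem _ hb'_mem rfl
    have hthird : b' = third o o' b := third_unique adj_o_o' hob hob' hbne hbne' hbb'
    refine ⟨?_, ?_, ?_⟩
    · cases c
      · rfl
      · exfalso
        refine hD (o, third o o' b) ?_ _ hb'_mem ?_
        · rw [hE]; simp [tri]
        · rw [hthird]
    · cases c'
      · rfl
      · exfalso
        refine hD _ hb_mem (o, third o o' b') ?_ ?_
        · rw [hE']; simp [tri]
        · rw [← third_unique adj_o_o' hob' hob hbne' hbne (Ne.symm hbb')]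
    · intro z hz z' hz' hzz
      obtain ⟨x, y, k1, k2, k3, k4, k5⟩ := enc_two r o b t hlen hok.tail z hz
      obtain ⟨x', y', l1, l2, l3, l4, l5⟩ := htwo' z' hz'
      exact pigeon (N := N) (i := i) k2 k3 k1 l2 l3 l1 hzz (hD _ (hsub _ k4) _ l4) (hD _ (hsub _ k4) _ l5)
        (hD _ (hsub _ k5) _ l4) (hD _ (hsub _ k5) _ l5)
  · rintro ⟨rfl, rfl, hD⟩ d hd d' hd' he
    have hpf : DC.pf N i d.1 = DC.pf N i d'.1 := congrArg Prod.fst he
    have hd'1 : d'.1 ∈ o :: b' :: r' := enc_mem_fst _ _ _ hd'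
    rw [hE] at hd
    simp only [tri, Bool.false_eq_true, if_false, List.cons_append, List.nil_append, List.tail_cons,
      List.mem_cons] at hd
    rcases hd with rfl | hd
    · -- the dart (o, b)
      rw [hE'] at hd'
      simp only [tri, Bool.false_eq_true, if_false, List.cons_append, List.nil_append, List.mem_cons] at hd'
      rcases hd' with rfl | rfl | hd'
      · have h1 : b - o = o' - o := congrArg Prod.snd he
        exact hbne (sub_left_injective h1)
      · have h1 : b - o = b' - o := congrArg Prod.snd he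
        have h2 : b = b' := sub_left_injective h1
        subst h2
        exact hD b (by simp) b (by simp) rfl
      · have h1 := enc_mem_fst _ _ _ hd'
        have h2 := hR'.2.2.2.1
        rw [List.map_cons, List.nodup_cons] at h2
        apply h2.1
        simp only at hpf
        rw [hpf]
        exact List.mem_map_of_mem h1
    · exact hD d.1 (enc_mem_fst _ _ _ hd) d'.1 hd'1 hpf

/-- Pairs of codes. -/
noncomputable def eqv2 {N : ℕ} (hN : 1 ≤ N) (i : Fin L) :
    (Σ q : DC.IP2 N i, BL (q.1.1.length - 1) × BL (q.1.2.length - 1)) ≃ ID2 N i := by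
  have hlen : ∀ {R : List (ℤ × ℤ)}, R ∈ DC.IP N i → ∀ cs : BL (R.length - 1), (false :: cs.1).length = R.length := by
    intro R hR cs
    obtain ⟨b, r, rfl, -⟩ := ok_of hN hR
    rw [List.length_cons, cs.2]
    simp
  refine Equiv.ofBijective (fun p => ⟨(enc o' p.1.1.1 (false :: p.2.1.1), enc o' p.1.1.2 (false :: p.2.2.1)),
    enc_mem hN p.1.2.1 (hlen p.1.2.1 p.2.1), enc_mem hN p.1.2.2.1 (hlen p.1.2.2.1 p.2.2),
    (av_iff hN p.1.2.1 p.1.2.2.1 (hlen p.1.2.1 p.2.1) (hlen p.1.2.2.1 p.2.2)).2 ⟨rfl, rfl, p.1.2.2.2⟩⟩) ?_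
  constructor
  · rintro ⟨⟨⟨R, R'⟩, hR, hR', hd⟩, ⟨cs, hcs⟩, ⟨cs', hcs'⟩⟩ ⟨⟨⟨T, T'⟩, hT, hT', hd'⟩, ⟨ds, hds⟩, ⟨ds', hds'⟩⟩ h
    have h0 := congrArg Subtype.val h
    rw [Prod.mk.injEq] at h0
    obtain ⟨h1, h2⟩ := h0
    simp only at h1 h2 hcs hcs' hds hds' hR hR' hT hT'
    have key : ∀ {R T : List (ℤ × ℤ)}, R ∈ DC.IP N i → T ∈ DC.IP N i → ∀ {cs ds : List Bool},
        cs.length = R.length - 1 → ds.length = T.length - 1 → enc o' R (false :: cs) = enc o' T (false :: ds) →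
        R = T ∧ cs = ds := by
      intro R T hR hT cs ds hcs hds he
      have e1 := enc_dedup R o' _ (hlen hR ⟨cs, hcs⟩) (nodup_of_map hR.2.2.2.1)
      have e2 := enc_dedup T o' _ (hlen hT ⟨ds, hds⟩) (nodup_of_map hT.2.2.2.1)
      rw [he, e2] at e1
      subst e1
      obtain ⟨b, r, rfl, hok⟩ := ok_of hN hR
      have h4 := enc_inj_cs (b :: r) o' o _ _ (by simpa using hlen hR ⟨cs, hcs⟩) (by simpa using hlen hT ⟨ds, hds⟩)
        hok he
      exact ⟨rfl, (List.cons.inj h4).2⟩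
    obtain ⟨rfl, rfl⟩ := key hR hT hcs hds h1
    obtain ⟨rfl, rfl⟩ := key hR' hT' hcs' hds' h2
    rfl
  · rintro ⟨⟨P, P'⟩, hP, hP', hd⟩
    simp only at hP hP' hd
    obtain ⟨R, hR, cs, hcs, rfl⟩ := enc_surj hN hP
    obtain ⟨R', hR', cs', hcs', rfl⟩ := enc_surj hN hP'
    have hne : ∀ {R : List (ℤ × ℤ)}, R ∈ DC.IP N i → 1 ≤ R.length := by
      intro R hR
      obtain ⟨b, r, rfl, -⟩ := ok_of hN hR
      simp
    have n1 := hne hR
    have n2 := hne hR'
    match cs, hcs, cs', hcs', hd with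
    | [], hcs, _, _, _ => simp at hcs; omega
    | _ :: _, _, [], hcs', _ => simp at hcs'; omega
    | c :: t, hcs, c' :: t', hcs', hd =>
      obtain ⟨rfl, rfl, hd2⟩ := (av_iff hN hR hR' hcs hcs').1 hd
      refine ⟨⟨⟨(R, R'), hR, hR', hd2⟩, ⟨t, by simp at hcs; simp only; omega⟩, ⟨t', by simp at hcs'; simp only; omega⟩⟩, ?_⟩
      rfl

/-- The factor of the first triangle. -/
noncomputable def fT : ℝ≥0∞ := (xT ^ 2 / xE) ^ 2

theorem sum_two {N : ℕ} (hN : 1 ≤ N) (i : Fin L) :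
    ∑' q : ID2 N i, xT ^ (q.1.1.length + q.1.2.length) =
      fT * ∑' q : DC.IP2 N i, xE ^ (q.1.1.length + q.1.2.length) := by
  have hE0 : xE ≠ 0 := by
    unfold xE; exact (ENNReal.ofReal_pos.2 xc_pos).ne'
  have hET : xE ≠ ⊤ := ENNReal.ofReal_ne_top
  have hne : ∀ {R : List (ℤ × ℤ)}, R ∈ DC.IP N i → 1 ≤ R.length := by
    intro R hR
    obtain ⟨b, r, rfl, -⟩ := ok_of hN hR
    simp
  rw [← (eqv2 hN i).tsum_eq, ENNReal.tsum_sigma', ← ENNReal.tsum_mul_left]
  refine tsum_congr fun q => ?_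
  have n1 := hne q.2.1
  have n2 := hne q.2.2.1
  have h1 : ∀ p : BL (q.1.1.length - 1) × BL (q.1.2.length - 1),
      xT ^ (((eqv2 hN i) ⟨q, p⟩).1.1.length + ((eqv2 hN i) ⟨q, p⟩).1.2.length) =
        (xT ^ 2 * wB p.1.1) * (xT ^ 2 * wB p.2.1) := by
    intro p
    have e1 : (enc o' q.1.1 (false :: p.1.1)).length = 2 + Pool.Agent.Hhelper64.T12.wt p.1.1 := by
      rw [enc_length _ _ _ (by rw [List.length_cons, p.1.2]; omega), wt_cons]; rfl
    have e2 : (enc o' q.1.2 (false :: p.2.1)).length = 2 + Pool.Agent.Hhelper64.T12.wt p.2.1 := by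
      rw [enc_length _ _ _ (by rw [List.length_cons, p.2.2]; omega), wt_cons]; rfl
    show xT ^ ((enc o' q.1.1 (false :: p.1.1)).length + (enc o' q.1.2 (false :: p.2.1)).length) = _
    rw [e1, e2, pow_add, pow_add, pow_add]
  simp_rw [h1]
  rw [ENNReal.tsum_prod']
  simp_rw [ENNReal.tsum_mul_left]
  rw [sum_BL, ENNReal.tsum_mul_right, ENNReal.tsum_mul_left, sum_BL, pow_add]
  have h2 : ∀ m : ℕ, 1 ≤ m → xE ^ (m - 1) = xE ^ m / xE := by
    intro m hm
    obtain ⟨k, rfl⟩ : ∃ k, m = k + 1 := ⟨m - 1, by omega⟩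
    rw [Nat.add_sub_cancel, pow_succ, ENNReal.mul_div_cancel_right hE0 hET]
  rw [h2 _ n1, h2 _ n2]
  unfold fT
  rw [div_eq_mul_inv, div_eq_mul_inv, div_eq_mul_inv]
  ring

end Pool.Agent.CYL.T
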