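import Pool.Agent.CYL.U.FinAll
import Pool.Agent.CYL.T.Main

/-!
CYL: the uniform theorem on two lattices.
-/

namespace Pool.Agent.CYL.T

open Pool.Agent.Hhelper64.Two
open scoped Topology
open Filter

theorem one_le_log {L N : ℕ} (hL : 3 ≤ L) (hN : 1 ≤ N) : 1 ≤ Real.log ((L : ℝ) * N) := by
  have hL3 : (3 : ℝ) ≤ L := by exact_mod_cast hL
  have hN1 : (1 : ℝ) ≤ N := by exact_mod_cast hN
  have h3 : (3 : ℝ) ≤ L * N := by nlinarith
  rw [Real.le_log_iff_exp_le (by linarith)]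
  have := Real.exp_one_lt_d9
  linarith

/-- From a bound for the honeycomb lattice to both lattices. -/
theorem transfer {κ : ℕ → ℝ} {C : ℝ} (hC : 0 < C)
    (h : ∀ L N : ℕ, 3 ≤ L → 1 ≤ N → 0 < Plane.P L N ∧ |Real.log (Plane.P L N) + κ L * N| ≤ C * Real.log (L * N))
    {G : Set ℂ} {s : ℝ} (hG : IsLat G s) : ∃ C' : ℝ, 0 < C' ∧ ∀ L N : ℕ, 3 ≤ L → 1 ≤ N →
      0 < Two.P G s L N ∧ |Real.log (Two.P G s L N) + κ L * N| ≤ C' * Real.log (L * N) := by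
  obtain ⟨f, hf, hP⟩ := lat_P hG
  refine ⟨C + |Real.log f|, by positivity, fun L N hL hN => ?_⟩
  obtain ⟨h1, h2⟩ := h L N hL hN
  rw [hP L N (by omega) hN]
  refine ⟨by positivity, ?_⟩
  rw [Real.log_mul hf.ne' h1.ne', add_assoc]
  have h3 := one_le_log hL hN
  calc |Real.log f + (Real.log (Plane.P L N) + κ L * N)| ≤ |Real.log f| + |Real.log (Plane.P L N) + κ L * N| :=
        abs_add_le _ _
    _ ≤ |Real.log f| * Real.log (L * N) + C * Real.log (L * N) :=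
        add_le_add (le_mul_of_one_le_right (abs_nonneg _) h3) h2
    _ = (C + |Real.log f|) * Real.log (L * N) := by ring

/-- **The uniform theorem on two lattices**, with the same rates `κ L`. -/
theorem uniform_two : ∃ κ : ℕ → ℝ,
    Tendsto (fun L : ℕ => (L : ℝ) * κ L) atTop (𝓝 (11 / 24 * Real.sqrt 3 * Real.pi)) ∧
    ∃ C : ℝ, 0 < C ∧ ∀ (G : Set ℂ) (s : ℝ), (G = honeycomb ∧ s = Real.sqrt 3) ∨ (G = truncated ∧ s = 2 + Real.sqrt 3) →
      ∀ L N : ℕ, 3 ≤ L → 1 ≤ N → (Summable fun w : Two.Cross G s L N => Two.wt G w.1) ∧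
        0 < Two.P G s L N ∧ |Real.log (Two.P G s L N) + κ L * N| ≤ C * Real.log (L * N) := by
  obtain ⟨κ, hκ, C, hC, h⟩ := U.uniform_all
  obtain ⟨C1, hC1, h1⟩ := transfer hC h (G := honeycomb) (s := Real.sqrt 3) (Or.inl ⟨rfl, rfl⟩)
  obtain ⟨C2, hC2, h2⟩ := transfer hC h (G := truncated) (s := 2 + Real.sqrt 3) (Or.inr ⟨rfl, rfl⟩)
  refine ⟨κ, hκ, max C1 C2, lt_max_of_lt_left hC1, fun G s hG L N hL hN => ⟨lat_sum hG (by omega) hN, ?_⟩⟩
  have h0 : 0 ≤ Real.log ((L : ℝ) * N) := by linarith [one_le_log hL hN]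
  rcases hG with ⟨rfl, rfl⟩ | ⟨rfl, rfl⟩
  · obtain ⟨a, b⟩ := h1 L N hL hN
    exact ⟨a, b.trans (mul_le_mul_of_nonneg_right (le_max_left _ _) h0)⟩
  · obtain ⟨a, b⟩ := h2 L N hL hN
    exact ⟨a, b.trans (mul_le_mul_of_nonneg_right (le_max_right _ _) h0)⟩

end Pool.Agent.CYL.T
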